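import Pool.Agent.P8H40.CY.Stm3

/-!
# Project CY, package MAT (helper45)
-/

set_option autoImplicit false

open Set

namespace Pool.Agent.P8H45.CY

open Pool.Agent.P8H40.CY

theorem mat : S_MAT := by
  intro K k N β _ L y x hLy halg
  classical
  obtain ⟨M, hM⟩ : ∃ M : Matroid ℂ, M = AlgebraicIndependent.matroid K ℂ := ⟨_, rfl⟩
  have hE : ∀ X : Set ℂ, X ⊆ M.E := by
    intro X
    rw [hM, AlgebraicIndependent.matroid_e]
    exact subset_univ X
  obtain ⟨S, hS⟩ : ∃ S : Set ℂ, S = range L ∪ range x := ⟨_, rfl⟩
  have hSf : S.Finite := by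
    rw [hS]
    exact (finite_range L).union (finite_range x)
  have hLi : AlgebraicIndependent K L := by
    have := hLy.comp Sum.inl Sum.inl_injective
    exact this
  have hLind : M.Indep (range L) := by
    rw [hM]
    exact hLi.to_subtype_range
  have hTind : M.Indep (range (Sum.elim L y)) := by
    rw [hM]
    exact hLy.to_subtype_range
  obtain ⟨J, hJ, hLJ⟩ := hLind.subset_isBasis_of_subset (X := S) (by rw [hS]; exact subset_union_left)
    (hE S)
  have hTS : range (Sum.elim L y) ⊆ M.closure S := by
    rw [hM, AlgebraicIndependent.matroid_closure_eq]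
    rintro _ ⟨i | i, rfl⟩
    · change IsAlgebraic _ _
      exact isAlgebraic_algebraMap (⟨L i, Algebra.subset_adjoin (by
        rw [hS]; exact Or.inl ⟨i, rfl⟩)⟩ : Algebra.adjoin K S)
    · change IsAlgebraic _ _
      rw [hS]
      exact halg i
  have hcard : ((k + N : ℕ) : ℕ∞) ≤ J.encard := by
    have h1 := hTind.encard_le_eRk_of_subset hTS
    rw [Matroid.eRk_closure_eq, ← hJ.encard_eq_eRk] at h1
    have h2 : (range (Sum.elim L y)).encard = ((k + N : ℕ) : ℕ∞) := by
      rw [← image_univ, hLy.injective.encard_image, encard_univ, ENat.card_eq_coe_fintype_card,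
        Fintype.card_sum, Fintype.card_fin, Fintype.card_fin]
    rwa [h2] at h1
  have hJf : J.Finite := hSf.subset hJ.subset
  have hLc : (range L).encard = k := by
    rw [← image_univ, hLi.injective.encard_image, encard_univ, ENat.card_eq_coe_fintype_card,
      Fintype.card_fin]
  have hD : (N : ℕ∞) ≤ (J \ range L).encard := by
    have h1 := encard_sdiff_add_encard_of_subset hLJ
    rw [hLc] at h1
    rw [← h1] at hcard
    push_cast at hcard
    rw [add_comm] at hcard
    exact (ENat.add_le_add_iff_right (ENat.natCast_ne_top k)).1 hcard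
  have hDf : (J \ range L).Finite := hJf.subset sdiff_subset
  have := hDf.fintype
  obtain ⟨u⟩ : Nonempty (Fin N ↪ ↥(J \ range L)) := by
    refine Function.Embedding.nonempty_of_card_le ?_
    rw [Fintype.card_fin]
    have h1 : (J \ range L).encard = (Fintype.card ↥(J \ range L) : ℕ∞) := by
      rw [← ENat.card_eq_coe_fintype_card]
      rfl
    rw [h1] at hD
    exact_mod_cast hD
  have hx : ∀ i, ∃ b, x b = u i := by
    intro i
    have h1 := hJ.subset (u i).2.1
    rw [hS] at h1
    rcases h1 with h1 | h1
    · exact absurd h1 (u i).2.2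
    · exact h1
  choose σ hσ using hx
  refine ⟨σ, fun a b hab => u.injective (Subtype.ext ?_), ?_⟩
  · rw [← hσ, ← hσ, hab]
  have hJi : AlgebraicIndependent K (fun j : J => (j : ℂ)) := by
    have h1 := hJ.indep
    rw [hM] at h1
    exact h1
  obtain ⟨e, he⟩ : ∃ e : Fin k ⊕ Fin N → J, e = Sum.elim (fun a => ⟨L a, hLJ ⟨a, rfl⟩⟩)
    (fun i => ⟨u i, (u i).2.1⟩) := ⟨_, rfl⟩
  have hinj : Function.Injective e := by
    rw [he]
    refine Function.Injective.sumElim ?_ ?_ ?_
    · intro a b hab
      exact hLi.injective (congrArg Subtype.val hab)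
    · intro a b hab
      have h1 : ((u a : ℂ)) = u b := congrArg (Subtype.val : J → ℂ) hab
      exact u.injective (Subtype.ext h1)
    · intro a b hab
      exact (u b).2.2 ⟨a, congrArg Subtype.val hab⟩
  have h2 := hJi.comp e hinj
  have h3 : (fun j : J => (j : ℂ)) ∘ e = Sum.elim L (fun i => x (σ i)) := by
    rw [he]
    funext c
    rcases c with c | c
    · rfl
    · exact (hσ c).symm
  rwa [h3] at h2

end Pool.Agent.P8H45.CY
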